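import Pool.Agent.H73.EV.Chk

set_option autoImplicit false

/-! # The complex on 17 vertices and its strategies (helper73, helper393; computer search) -/

namespace Pool.Agent.H73.EY

open Pool.Agent.H73.EV (Tr msk bm)
open Pool.Agent.H73.EV.Tr

/-- The facets, as bitmasks: the vertices 0-12 are those of the suspension of the A5-acyclic
2-complex (0-4 points, 5-10 pentagon centres, 11, 12 suspension points), the others are new. -/
def fct : List ℕ := [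
  2580, 4170, 10275, 10281, 10313, 10755, 10757, 11269, 11270, 11273, 11282, 11288, 12361,
  12369, 12421, 12433, 12805, 13317, 13318, 13321, 13330, 13336, 18513, 18516, 18577, 18700,
  18705, 18712, 20515, 20739, 20742, 20748, 20995, 21002, 24611, 24649, 24657, 24721, 24844,
  25091, 25093, 26689, 26694, 26757, 26883, 26886, 28713, 28945, 28952, 29185, 29208, 34868,
  34890, 34954, 34962, 35338, 36914, 36916, 41012, 41096, 43032, 43048, 43058, 43074, 43080,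
  45128, 49298, 51220, 51244, 51340, 51344, 51736, 53254, 53282, 53292, 53388, 57356, 57394,
  57414, 57416, 57428, 57860, 57880, 61480, 61960, 67722, 67730, 69682, 69684, 69716, 69770,
  70164, 73764, 73866, 76292, 77830, 77956, 77970, 78340, 78352, 81970, 83992, 84012, 84108,
  84112, 86026, 86050, 86060, 86086, 86156, 90124, 90182, 90184, 90258, 90628, 90634, 90648,
  92228, 92292]

/-- Closure under removal of elements. -/
def clos (x : ℕ) : ℕ → ℕ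
  | 0 => x
  | v + 1 => clos (x ||| ((x >>> 2 ^ v) &&& msk 17 v)) v

/-- The bitmap of the complex. -/
def big : ℕ := clos (fct.foldr (fun m x => x ||| 2 ^ m) 0) 17

/-- strategy for the link of 13 after removal of the later vertices. -/
def tr13 : Tr :=
  .q 5 (.q 2 (.l 4) (.q 4 (.l 1) (.l 0))) (.q 7 (.q 3 (.l 1) (.q 1 (.l 4) (.l 0))) (.q 2 (.q 3
  (.l 8) (.q 4 (.l 6) (.q 9 (.l 0) (.q 0 (.l 10) (.l 1))))) (.q 6 (.q 1 (.l 11) (.l 0)) (.q 1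
  (.q 3 (.l 9) (.q 12 (.l 4) (.l 11))) (.q 10 (.l 3) (.q 11 (.q 4 (.l 3) (.l 0)) (.l 12)))))))

/-- strategy for the link of 14 after removal of the later vertices. -/
def tr14 : Tr :=
  .q 5 (.q 4 (.l 1) (.q 1 (.l 0) (.l 3))) (.q 3 (.q 1 (.l 9) (.q 7 (.l 2) (.q 2 (.l 8) (.q 11
  (.l 4) (.l 13))))) (.q 9 (.q 11 (.l 4) (.q 4 (.l 12) (.l 0))) (.q 12 (.q 7 (.l 2) (.q 6 (.l
  1) (.l 8))) (.q 1 (.l 13) (.q 2 (.q 4 (.l 6) (.l 11)) (.l 0))))))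

/-- strategy for the link of 15 after removal of the later vertices. -/
def tr15 : Tr :=
  .q 6 (.q 12 (.l 3) (.q 14 (.l 13) (.q 3 (.l 11) (.l 13)))) (.q 1 (.q 2 (.l 14) (.q 12 (.l 5)
  (.q 14 (.l 4) (.l 11)))) (.q 12 (.q 4 (.l 2) (.l 3)) (.q 5 (.q 2 (.q 13 (.l 4) (.l 11)) (.q 4
  (.l 13) (.l 3))) (.q 2 (.l 14) (.q 13 (.l 3) (.l 11))))))

/-- strategy for the link of 16 after removal of the later vertices. -/
def tr16 : Tr :=
  .q 6 (.q 3 (.l 13) (.l 2)) (.q 11 (.q 9 (.l 2) (.q 1 (.l 7) (.l 14))) (.q 7 (.q 4 (.l 1) (.q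
  3 (.q 13 (.l 1) (.l 12)) (.q 1 (.l 13) (.l 2)))) (.q 3 (.l 14) (.q 4 (.q 2 (.l 12) (.q 5 (.l
  1) (.l 13))) (.q 9 (.l 13) (.q 13 (.l 2) (.l 12)))))))

/-- strategy for the complex. -/
def trM : Tr :=
  .q 10 (.l 13) (.q 8 (.l 14) (.q 11 (.q 0 (.q 4 (.l 14) (.l 13)) (.q 16 (.q 9 (.l 2) (.q 1 (.l
  7) (.l 14))) (.q 3 (.l 15) (.q 7 (.q 1 (.l 4) (.l 14)) (.q 6 (.q 4 (.l 2) (.l 1)) (.q 14 (.q
  9 (.l 4) (.l 2)) (.q 2 (.q 1 (.l 13) (.q 13 (.l 9) (.l 4))) (.q 4 (.l 15) (.l 1))))))))) (.q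
  0 (.q 1 (.l 14) (.l 13)) (.q 9 (.q 1 (.l 3) (.q 15 (.l 13) (.q 2 (.l 16) (.l 4)))) (.q 12 (.q
  15 (.q 6 (.l 3) (.q 4 (.l 5) (.l 14))) (.q 2 (.l 16) (.q 5 (.q 4 (.l 1) (.l 14)) (.q 14 (.q 6
  (.l 1) (.l 3)) (.q 3 (.q 4 (.l 13) (.q 13 (.l 6) (.l 1))) (.q 1 (.l 16) (.l 4))))))) (.q 6
  (.q 4 (.l 2) (.q 16 (.l 13) (.l 15))) (.q 1 (.q 2 (.l 13) (.q 3 (.q 15 (.l 7) (.l 13)) (.l
  4))) (.q 7 (.q 4 (.l 14) (.q 15 (.l 3) (.l 16))) (.q 16 (.q 4 (.q 2 (.l 5) (.l 14)) (.l 2))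
  (.l 15))))))))))

end Pool.Agent.H73.EY
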