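import Mathlib

set_option autoImplicit false

/-! # The group of order 120 acting on the 13 old vertices, by tables (helper73) -/

namespace Pool.Agent.H73.EY

/-- A digit. -/
def dg (T w i : ℕ) : ℕ := (T >>> (w * i)) % 2 ^ w

/-- table of the generators (the last one generates the stabiliser of a copy). -/
def gT : ℕ :=
  303149626829012655288894651184046054626555457325680717371478592

@[inherit_doc gT]
def gvT : ℕ :=
  303149626829012655288894651184046050257421158487171550740038192

/-- table of the coset representatives. -/
def pmT : ℕ :=
  1299738639555524531002827620593559855190591962806832156314494120096169731932962271424276041426529989498020838619402511631174654063546437538309807660817174358560308469910905571585097754237682203069579862305658919718985486444332451973972203138863099771433335329969307452346392369592029488625351909063746671558781656560482891191171598411010831407944055709367055777334110325171500040826329029141075790595135999662340422353907016843781794131348261110743881761006118919975738461966700556922647528547415400637854625550996725449325022577178512288507134602338691812619848462646008789875586912205760725076698514017950575690094647569207373666742736808365006731460949950288065922841662375204001474926561507800834274190055222918936856540163482187172167071605734084931716192700460021099277370923472107703314430712778809721237067227682180295948711354691859171563689623825124655151794641792568087517700989019261604982545364430830152384799133369402387608080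

/-- action of the generators on the copies. -/
def piT : ℕ :=
  15688567703457251749268768498208753114516455548886580310216742487758530647206045454588846573182411921675638339637639907134809923476353436780375808593142359527544113744403807555096148272241870617404371012000587882380556197240908894334830607075459661744269298463766357014811855907187039782605490410387612435045633858672722058774598336131421283782673312731235531565621719191329678753071829363313838310389745801197001081935444390035976588931176284621125116014836545661066785873263647363303119863183594097820033

@[inherit_doc piT]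
def pvT : ℕ :=
  15688567703457251749268768498208753114516455548886580310216742487758530647206045454588846573182411921675638339637639907134809923476353436780375808593142359527544113744403807555096148272241870617404371012000587882380556197240908894334830607075459661744269257868405917802552004358080743044394957203601603592993253684428093085875564192692544277306755437521449898736754261479850913085749980025240572326406051746772798937573303151814993932626717321354010679805074468712391703156209293116243131311879940500258819

/-- twist bits. -/
def bT : ℕ :=
  1766847064778384329583297500742918514498255901090703085217799141012275200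

/-- table of parents in a spanning tree of the copies. -/
def paT : ℕ :=
  1108491920778165818601240564089843407953163953133865723069012429424820874763980629358595316504389067656119568604913612047253504

/-- spanning forest of the new vertices: copy, index, generator. -/
def npiT : ℕ :=
  23638739914992912821292778443450530593706650361860155295086817491507231433356699265382602021437946119162249987747075493101566085227847504984804830391208305041169253440639763109328136877564072926589512061166330969533153781347954501556135295548506054079733874570936482926157373483216365736709960330868891484388266688071668678241295531185045388376171104552418173763382700950407715253049530452472122724777504933712530651721619405257491649824948998742003126189510112123681120697691208100785282767688389313429504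

@[inherit_doc npiT]
def npjT : ℕ :=
  2338259379842893842406362419580060475521121871946231083849921610908280581072945820739739989426260295715729247322652910775503157988024008429347073041044253905486850236954093073111230158710483551132022210119930275726472

@[inherit_doc npiT]
def ngT : ℕ :=
  295138804862837235218844521630221758039890324782158927868598943762492290375032109387353138610170910153994447276478360617058874070011070706575784082054464361143789124518610355076759447585939427575020584594481522673152

/-- spanning forest of the old vertices. -/
def ptT : ℕ := 3298008084005696

@[inherit_doc ptT]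
def pgT : ℕ := 137579466968

/-- the generators as functions. -/
def gF (c : Fin 4) (x : Fin 13) : Fin 13 :=
  ⟨dg gT 4 (13 * c.val + x.val) % 13, Nat.mod_lt _ (by norm_num)⟩

@[inherit_doc gF]
def gvF (c : Fin 4) (x : Fin 13) : Fin 13 :=
  ⟨dg gvT 4 (13 * c.val + x.val) % 13, Nat.mod_lt _ (by norm_num)⟩

theorem gv_g : ∀ c : Fin 4, ∀ x : Fin 13, gvF c (gF c x) = x := by decide +kernel

theorem g_gv : ∀ c : Fin 4, ∀ x : Fin 13, gF c (gvF c x) = x := by decide +kernel

/-- The generators. -/
def gen (c : Fin 4) : Equiv.Perm (Fin 13) where
  toFun := gF c
  invFun := gvF c
  left_inv := gv_g c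
  right_inv := g_gv c

/-- The coset representatives. -/
def pm (g : Fin 60) (x : Fin 13) : Fin 13 :=
  ⟨dg pmT 4 (13 * g.val + x.val) % 13, Nat.mod_lt _ (by norm_num)⟩

/-- action of a generator on the copies. -/
def piF (c : Fin 4) (g : Fin 60) : Fin 60 :=
  ⟨dg piT 7 (60 * c.val + g.val) % 60, Nat.mod_lt _ (by norm_num)⟩

@[inherit_doc piF]
def pvF (c : Fin 4) (g : Fin 60) : Fin 60 :=
  ⟨dg pvT 7 (60 * c.val + g.val) % 60, Nat.mod_lt _ (by norm_num)⟩

/-- the twist. -/
def bF (c : Fin 4) (g : Fin 60) : Bool := Nat.beq (dg bT 1 (60 * c.val + g.val)) 1

/-- the power of `h`. -/
def hp (b : Bool) (x : Fin 13) : Fin 13 := if b then gen 3 x else x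

/-- the action of `h` on the new vertices of a copy. -/
def hz (b : Bool) (j : Fin 4) : Fin 4 := if b then (![0, 1, 3, 2] : Fin 4 → Fin 4) j else j

/-- the parent. -/
def paF (g : Fin 60) : Fin 60 :=
  ⟨dg paT 7 g.val % 60, Nat.mod_lt _ (by norm_num)⟩

set_option maxRecDepth 100000 in
theorem pv_pi : ∀ c : Fin 4, ∀ g : Fin 60, pvF c (piF c g) = g := by decide +kernel

set_option maxRecDepth 100000 in
theorem pi_pv : ∀ c : Fin 4, ∀ g : Fin 60, piF c (pvF c g) = g := by decide +kernel

set_option maxRecDepth 100000 in
theorem pm_pi : ∀ c : Fin 4, ∀ g : Fin 60, ∀ x : Fin 13,
    pm (piF c g) (hp (bF c g) x) = gen c (pm g x) := by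
  decide +kernel

set_option maxRecDepth 100000 in
theorem pm_zero : ∀ x : Fin 13, pm 0 x = x := by decide +kernel

theorem hp_hp : ∀ b : Bool, ∀ x : Fin 13, hp b (hp b x) = x := by decide +kernel

theorem hz_hz : ∀ b : Bool, ∀ x : Fin 4, hz b (hz b x) = x := by decide +kernel

set_option maxRecDepth 100000 in
theorem pa_spec : ∀ g : Fin 60, paF g = g ∨ ∃ c : Fin 4, piF c (paF g) = g := by
  decide +kernel

set_option maxRecDepth 100000 in
theorem pa_iter : ∀ g : Fin 60, paF^[9] g = 0 := by decide +kernel

/-- action of a generator on the copies. -/
def pI (c : Fin 4) : Equiv.Perm (Fin 60) where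
  toFun := piF c
  invFun := pvF c
  left_inv := pv_pi c
  right_inv := pi_pv c

/-- Generation. -/
theorem gen_ind (P : Fin 60 → Prop) (h0 : P 0) (hs : ∀ c g, P g → P (piF c g)) : ∀ g, P g := by
  have h1 : ∀ g, P (paF g) → P g := by
    intro g hg
    rcases pa_spec g with h | ⟨c, h⟩
    · rwa [h] at hg
    · rw [← h]; exact hs c _ hg
  have h2 : ∀ n g, P (paF^[n] g) → P g := by
    intro n
    induction n with
    | zero => exact fun g h => h
    | succ n ih =>
      intro g h
      rw [Function.iterate_succ_apply] at h
      exact h1 g (ih _ h)
  intro g
  apply h2 9
  rw [pa_iter]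
  exact h0

set_option maxRecDepth 100000 in
theorem pm_inj' : ∀ g : Fin 60, ∀ x y : Fin 13, pm g x = pm g y → x = y := by decide +kernel

theorem pm_inj (g : Fin 60) : Function.Injective (pm g) := fun x y h => pm_inj' g x y h

/-- the types of the old vertices. -/
def t0 (x : Fin 13) : ℕ := if x.val < 5 then 0 else if x.val < 11 then 1 else 2

theorem t0_gen : ∀ c : Fin 4, ∀ x : Fin 13, t0 (gen c x) = t0 x := by decide +kernel

/-- the types of the new vertices. -/
def tz (j : Fin 4) : ℕ := (![0, 1, 2, 2] : Fin 4 → ℕ) j

/-- roots of the types of the new vertices. -/
def rz (j : Fin 4) : Fin 4 := (![0, 1, 2, 2] : Fin 4 → Fin 4) j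

theorem tz_hz : ∀ b : Bool, ∀ j : Fin 4, tz (hz b j) = tz j := by decide +kernel

theorem rz_tz : ∀ i j : Fin 4, tz i = tz j → rz i = rz j := by decide +kernel

/-- parent of a new vertex. -/
def nP (p : Fin 60 × Fin 4) : Fin 60 × Fin 4 :=
  (⟨dg npiT 7 (4 * p.1.val + p.2.val) % 60, Nat.mod_lt _ (by norm_num)⟩,
   ⟨dg npjT 3 (4 * p.1.val + p.2.val) % 4, Nat.mod_lt _ (by norm_num)⟩)

/-- generator for a new vertex. -/
def nG (p : Fin 60 × Fin 4) : Fin 4 :=
  ⟨dg ngT 3 (4 * p.1.val + p.2.val) % 4, Nat.mod_lt _ (by norm_num)⟩

/-- action on the new vertices. -/
def act2 (c : Fin 4) (p : Fin 60 × Fin 4) : Fin 60 × Fin 4 :=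
  (piF c p.1, hz (bF c p.1) p.2)

set_option maxRecDepth 100000 in
theorem nP_spec : ∀ g : Fin 60, ∀ j : Fin 4, nP (g, j) = (g, j) ∨
    act2 (nG (g, j)) (nP (g, j)) = (g, j) := by decide +kernel

set_option maxRecDepth 100000 in
theorem nP_iter : ∀ g : Fin 60, ∀ j : Fin 4, nP^[9] (g, j) = (0, rz j) := by
  decide +kernel

/-- parent of an old vertex. -/
def oP (x : Fin 13) : Fin 13 := ⟨dg ptT 4 x.val % 13, Nat.mod_lt _ (by norm_num)⟩

/-- generator for an old vertex. -/
def oG (x : Fin 13) : Fin 4 := ⟨dg pgT 3 x.val % 4, Nat.mod_lt _ (by norm_num)⟩

/-- roots of the three orbits. -/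
def rt (x : Fin 13) : Fin 13 := if x.val < 5 then 0 else if x.val < 11 then 5 else 11

theorem oP_spec : ∀ x : Fin 13, oP x = x ∨ gen (oG x) (oP x) = x := by decide +kernel

theorem oP_iter : ∀ x : Fin 13, oP^[9] x = rt x := by decide +kernel

end Pool.Agent.H73.EY
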