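import Pool.Agent.H73.EY.Dat
import Pool.Agent.H73.EY.Tab

set_option autoImplicit false

/-! # Facts about the complex on 17 vertices (helper73) -/

namespace Pool.Agent.H73.EY

open Set Pool.Agent.H73.EV

/-- The complex on 17 vertices. -/
def MM (X : Set (Fin 17)) : Prop := big.testBit (code X) = true

/-- bitmap of all sets. -/
def full : ℕ := bm (fun _ => true) 17

theorem inv0 : Inv MM big full ∅ ∅ :=
  ⟨fun X _ => by rw [union_empty]; rfl, fun X _ => bm_code _ _ (fun _ _ => rfl)⟩

set_option maxRecDepth 100000 in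
theorem down_chk : ∀ v : Fin 17, Nat.beq (((big >>> 2 ^ v.val) &&& msk 17 v.val) &&& big)
    ((big >>> 2 ^ v.val) &&& msk 17 v.val) = true := by decide +kernel

theorem MM_erase (X : Set (Fin 17)) (v : Fin 17) (hv : v ∉ X) (h : MM (insert v X)) : MM X := by
  have h1 := down_chk v
  rw [Nat.beq_eq] at h1
  unfold MM at h ⊢
  rw [code_insert X v hv, ← Nat.testBit_shiftRight] at h
  have h2 : ((big >>> 2 ^ v.val) &&& msk 17 v.val).testBit (code X) = true := by
    rw [Nat.testBit_and, h, msk_code v X hv]; rfl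
  rw [← h1, Nat.testBit_and, Bool.and_eq_true] at h2
  exact h2.2

theorem MM_down (A B : Set (Fin 17)) (hAB : A ⊆ B) (h : MM B) : MM A := by
  classical
  have key : ∀ D : Finset (Fin 17), MM (A ∪ (D : Set (Fin 17))) → MM A := by
    intro D
    induction D using Finset.induction_on with
    | empty => intro h; simpa using h
    | insert v D _ ih =>
      intro h
      apply ih
      rw [Finset.coe_insert, Set.union_insert] at h
      by_cases hv : v ∈ A ∪ (D : Set (Fin 17))
      · rwa [Set.insert_eq_of_mem hv] at h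
      · exact MM_erase _ v hv h
  apply key (Finset.univ.filter (· ∈ B))
  have : A ∪ ((Finset.univ.filter (· ∈ B) : Finset (Fin 17)) : Set (Fin 17)) = B := by
    ext x
    simp only [mem_union, Finset.coe_filter, Finset.mem_univ, true_and, mem_ofPred_eq]
    exact ⟨fun h => h.elim (fun h => hAB h) id, Or.inr⟩
  rw [this]; exact h

theorem MM_empty : MM ∅ := by
  unfold MM
  rw [code_empty]
  decide +kernel

/-- the bitmask of the type of an old vertex. -/
def tmask (w : ℕ) : ℕ := if Nat.ble w 4 then 31 else if Nat.ble w 10 then 2016 else 6144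

/-- condition for leaves, computable. -/
def qM (t m w : ℕ) : Bool :=
  Nat.ble 13 w || !(Nat.beq (m &&& tmask w) 0) || !(Nat.beq ((t ||| m) &&& 122880) 122880)

/-- types of the vertices. -/
def t17 (i : ℕ) : ℕ := if i < 5 then 0 else if i < 11 then 1 else 2

/-- condition for the leaves. -/
def Qf (T N : Set (Fin 17)) (w : Fin 17) : Prop :=
  13 ≤ w.val ∨ (∃ u ∈ N, u.val < 13 ∧ t17 u.val = t17 w.val) ∨ (∃ z, 13 ≤ z.val ∧ z ∉ T ∧ z ∉ N)

theorem bit_lt {m i k : ℕ} (hm : m < 2 ^ k) (h : m.testBit i = true) : i < k := by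
  by_contra hik
  have h1 : m < 2 ^ i := lt_of_lt_of_le hm (Nat.pow_le_pow_right (by norm_num) (by omega))
  rw [Nat.testBit_lt_two_pow h1] at h
  exact Bool.false_ne_true h

theorem tmask_spec (w i : ℕ) (hw : w < 13) (h : (tmask w).testBit i = true) :
    i < 13 ∧ t17 i = t17 w := by
  have h1 : tmask w < 2 ^ 13 := by
    unfold tmask; split_ifs <;> norm_num
  have hi := bit_lt h1 h
  refine ⟨hi, ?_⟩
  have key : ∀ w : Fin 13, ∀ i : Fin 13, (tmask w.val).testBit i.val = true →
      t17 i.val = t17 w.val := by decide +kernel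
  exact key ⟨w, hw⟩ ⟨i, hi⟩ h

theorem qM_spec (t m w : ℕ) (hw : w < 17) (h : qM t m w = true) :
    Qf (st 17 t) (st 17 m) ⟨w, hw⟩ := by
  by_cases hw13 : 13 ≤ w
  · exact Or.inl hw13
  right
  simp only [qM, Bool.or_eq_true, Nat.ble_eq, Bool.not_eq_true'] at h
  rcases h with (h | h) | h
  · exact absurd h hw13
  · left
    have h1 : m &&& tmask w ≠ 0 := by
      intro h2
      rw [h2] at h
      simp at h
    obtain ⟨i, hi⟩ := Nat.exists_testBit_of_ne_zero h1
    rw [Nat.testBit_and, Bool.and_eq_true] at hi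
    obtain ⟨h2, h3⟩ := tmask_spec w i (by omega) hi.2
    exact ⟨⟨i, by omega⟩, hi.1, h2, h3⟩
  · right
    by_contra hcon
    push Not at hcon
    have h1 : (t ||| m) &&& 122880 = 122880 := by
      apply Nat.eq_of_testBit_eq
      intro i
      rw [Nat.testBit_and]
      by_cases hi : Nat.testBit 122880 i = true
      · have hiN : i < 17 := bit_lt (by norm_num) hi
        have hi13 : 13 ≤ i := by
          have key : ∀ i : Fin 17, Nat.testBit 122880 i.val = true → 13 ≤ i.val := by decide
          exact key ⟨i, hiN⟩ hi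
        have h2 := hcon ⟨i, hiN⟩ hi13
        rw [hi, Bool.and_true, Nat.testBit_or, Bool.or_eq_true]
        by_cases h3 : t.testBit i = true
        · exact Or.inl h3
        · exact Or.inr (h2 h3)
      · rw [Bool.not_eq_true] at hi
        rw [hi, Bool.and_false]
    rw [h1] at h
    simp at h

set_option maxRecDepth 100000 in
theorem chkM : chk 17 qM trM big full 0 0 = true := by decide +kernel

theorem wm_M : WM Qf MM ∅ ∅ := by
  have := chk_sound (M := MM) Qf qM qM_spec trM big full 0 0 chkM (by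
    rw [st_zero]; exact inv0)
  rwa [st_zero] at this

/-- bitmap of the sets of vertices `≤ 12 + j`. -/
def kz (j : ℕ) : ℕ := match j with
  | 3 => full
  | 2 => full &&& msk 17 16
  | 1 => (full &&& msk 17 16) &&& msk 17 15
  | _ => ((full &&& msk 17 16) &&& msk 17 15) &&& msk 17 14

/-- mask of the later vertices. -/
def lz (j : ℕ) : ℕ := match j with
  | 3 => 0
  | 2 => 65536
  | 1 => 98304
  | _ => 114688

/-- the tree of the link. -/
def tzT (j : ℕ) : Tr := match j with
  | 3 => tr16
  | 2 => tr15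
  | 1 => tr14
  | _ => tr13

set_option maxRecDepth 100000 in
theorem chkz : ∀ j : Fin 4, chk 17 (fun _ _ _ => true) (tzT j.val) (big >>> 2 ^ (13 + j.val))
    (kz j.val &&& msk 17 (13 + j.val)) (2 ^ (13 + j.val)) (lz j.val) = true := by decide +kernel

theorem inv_z : ∀ j : Fin 4, Inv MM big (kz j.val) ∅ (st 17 (lz j.val)) := by
  have h3 : Inv MM big full ∅ (st 17 0) := by rw [st_zero]; exact inv0
  have h2 := h3.abs 16
  rw [← st_or] at h2
  have h1 := h2.abs 15
  rw [← st_or] at h1
  have h0 := h1.abs 14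
  rw [← st_or] at h0
  intro j
  fin_cases j
  · exact h0
  · exact h1
  · exact h2
  · exact h3

theorem wm_z (j : Fin 4) : WM (fun _ _ _ => True) MM {(⟨13 + j.val, by omega⟩ : Fin 17)}
    {i : Fin 17 | 13 + j.val < i.val} := by
  have e1 : st 17 (lz j.val) = {i : Fin 17 | 13 + j.val < i.val} := by
    have key : ∀ j : Fin 4, ∀ i : Fin 17, (lz j.val).testBit i.val = true ↔ 13 + j.val < i.val := by
      decide
    ext i
    exact key j i
  have e2 : st 17 (2 ^ (13 + j.val)) = {(⟨13 + j.val, by omega⟩ : Fin 17)} := by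
    have := st_or 0 (⟨13 + j.val, by omega⟩ : Fin 17)
    rw [st_zero] at this
    simpa using this
  have h := (inv_z j).pres ⟨13 + j.val, by omega⟩ (Set.notMem_empty _) (by
    rw [e1]; exact fun h => absurd h (lt_irrefl (13 + j.val)))
  have := chk_sound (M := MM) (fun _ _ _ => True) (fun _ _ _ => true) (fun _ _ _ _ _ => trivial)
    (tzT j.val) _ _ _ _ (chkz j) (by
      rw [e2]
      simpa using h)
  rwa [e1, e2] at this

/-! ### The old vertices -/

/-- the set of old vertices given by a subset of `Fin 13`. -/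
def old (Y : Set (Fin 13)) : Set (Fin 17) := {i | ∃ h : i.val < 13, (⟨i.val, h⟩ : Fin 13) ∈ Y}

theorem toN_old (Y : Set (Fin 13)) : toN (old Y) = toN Y := by
  ext i
  rw [mem_toN, mem_toN]
  constructor
  · rintro ⟨h, h1, h2⟩
    exact ⟨h1, h2⟩
  · rintro ⟨h1, h2⟩
    exact ⟨by omega, h1, h2⟩

/-- checker for the invariance. -/
def ck (f : ℕ → ℕ) : ℕ → ℕ → ℕ → Bool
  | 0, s, s' => big.testBit s == big.testBit s'
  | n + 1, s, s' => ck f n s s' && ck f n (s + 2 ^ n) (s' + 2 ^ f n)

theorem ck_sound (f : ℕ → ℕ) : ∀ (n s s' : ℕ), ck f n s s' = true → ∀ Y : Finset ℕ,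
    (∀ i ∈ Y, i < n) →
    big.testBit (s + ∑ i ∈ Y, 2 ^ i) = big.testBit (s' + ∑ i ∈ Y, 2 ^ f i) := by
  intro n
  induction n with
  | zero =>
    intro s s' h Y hY
    have : Y = ∅ := by
      rw [Finset.eq_empty_iff_forall_notMem]
      intro i hi
      have := hY i hi
      omega
    subst this
    simpa [ck] using h
  | succ n ih =>
    intro s s' h Y hY
    rw [ck, Bool.and_eq_true] at h
    by_cases hn : n ∈ Y
    · have h2 := ih _ _ h.2 (Y.erase n) (fun i hi => by
        rw [Finset.mem_erase] at hi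
        have := hY i hi.2
        omega)
      rw [← Finset.add_sum_erase _ _ hn, ← Finset.add_sum_erase _ (fun i => 2 ^ f i) hn,
        ← add_assoc, ← add_assoc]
      exact h2
    · exact ih _ _ h.1 Y (fun i hi => by
        have := hY i hi
        have hne : i ≠ n := fun e => hn (e ▸ hi)
        omega)

/-- the generators on natural numbers. -/
def gN (c : Fin 4) (i : ℕ) : ℕ := (gen c ⟨i % 13, Nat.mod_lt _ (by norm_num)⟩).val

set_option maxRecDepth 100000 in
theorem ck_gen : ∀ c : Fin 4, ck (gN c) 13 0 0 = true := by decide +kernel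

theorem MM_gen (c : Fin 4) (Y : Set (Fin 13)) : MM (old (gen c '' Y)) ↔ MM (old Y) := by
  have h1 := ck_sound (gN c) 13 0 0 (ck_gen c) (toN Y) (fun i hi => by
    rw [mem_toN] at hi
    exact hi.1)
  have e : toN (gen c '' Y) = (toN Y).image (gN c) := by
    ext i
    rw [mem_toN, Finset.mem_image]
    constructor
    · rintro ⟨h, y, hy, hy2⟩
      refine ⟨y.val, (mem_toN _ _).2 ⟨y.2, hy⟩, ?_⟩
      have : (⟨y.val % 13, Nat.mod_lt _ (by norm_num)⟩ : Fin 13) = y :=
        Fin.ext (Nat.mod_eq_of_lt y.2)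
      rw [gN, this, hy2]
    · rintro ⟨a, ha, rfl⟩
      rw [mem_toN] at ha
      obtain ⟨h, h2⟩ := ha
      have : (⟨a % 13, Nat.mod_lt _ (by norm_num)⟩ : Fin 13) = ⟨a, h⟩ :=
        Fin.ext (Nat.mod_eq_of_lt h)
      rw [gN, this]
      exact ⟨(gen c ⟨a, h⟩).2, ⟨a, h⟩, h2, rfl⟩
  have hinj : Set.InjOn (gN c) (toN Y : Set ℕ) := by
    intro a ha b hb hab
    rw [Finset.mem_coe, mem_toN] at ha hb
    obtain ⟨ha, _⟩ := ha
    obtain ⟨hb, _⟩ := hb
    have h2 := (gen c).injective (Fin.ext hab)
    have h3 := congrArg Fin.val h2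
    simp only at h3
    rwa [Nat.mod_eq_of_lt ha, Nat.mod_eq_of_lt hb] at h3
  unfold MM code
  rw [toN_old, toN_old, e, Finset.sum_image hinj]
  rw [zero_add, zero_add] at h1
  rw [h1]

theorem MM_hp (b : Bool) (Y : Set (Fin 13)) : MM (old (hp b '' Y)) ↔ MM (old Y) := by
  cases b
  · have : hp false = id := funext fun _ => rfl
    rw [this, Set.image_id]
  · have : hp true = gen 3 := funext fun _ => rfl
    rw [this]
    exact MM_gen 3 Y

theorem MM_pm (g : Fin 60) : ∀ Y : Set (Fin 13), MM (old (pm g ⁻¹' Y)) ↔ MM (old Y) := by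
  refine gen_ind (fun g => ∀ Y : Set (Fin 13), MM (old (pm g ⁻¹' Y)) ↔ MM (old Y)) ?_ ?_ g
  · intro Y
    have : pm 0 = id := funext pm_zero
    rw [this, Set.preimage_id]
  · intro c g ih Y
    have h1 : pm (piF c g) ∘ hp (bF c g) = gen c ∘ pm g := funext (pm_pi c g)
    have h2 : hp (bF c g) '' (pm g ⁻¹' (gen c ⁻¹' Y)) = pm (piF c g) ⁻¹' Y := by
      rw [← Set.preimage_comp, ← h1, Set.preimage_comp]
      exact Set.image_preimage_eq _ (fun x => ⟨hp (bF c g) x, hp_hp _ x⟩)
    rw [← h2, MM_hp, ih, ← MM_gen c (gen c ⁻¹' Y), Set.image_preimage_eq _ (gen c).surjective]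

/-- the action of `h` on the vertices of a copy. -/
def hM (b : Bool) (i : Fin 17) : Fin 17 :=
  if h : i.val < 13 then ⟨(hp b ⟨i.val, h⟩).val, by omega⟩
  else ⟨13 + (hz b ⟨i.val - 13, by omega⟩).val, by omega⟩

/-- the same on natural numbers. -/
def hN (i : ℕ) : ℕ := (hM true ⟨i % 17, Nat.mod_lt _ (by norm_num)⟩).val

theorem hM_hM : ∀ b : Bool, ∀ i : Fin 17, hM b (hM b i) = i := by decide +kernel

set_option maxRecDepth 100000 in
theorem ck_h : ck hN 17 0 0 = true := by decide +kernel

theorem MM_hM (b : Bool) (Y : Set (Fin 17)) : MM (hM b '' Y) ↔ MM Y := by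
  cases b
  · have : hM false = id := by
      funext i
      have key : ∀ i : Fin 17, hM false i = i := by decide +kernel
      exact key i
    rw [this, Set.image_id]
  · have h1 := ck_sound hN 17 0 0 ck_h (toN Y) (fun i hi => by
      rw [mem_toN] at hi
      exact hi.1)
    have e : toN (hM true '' Y) = (toN Y).image hN := by
      ext i
      rw [mem_toN, Finset.mem_image]
      constructor
      · rintro ⟨h, y, hy, hy2⟩
        refine ⟨y.val, (mem_toN _ _).2 ⟨y.2, hy⟩, ?_⟩
        have : (⟨y.val % 17, Nat.mod_lt _ (by norm_num)⟩ : Fin 17) = y :=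
          Fin.ext (Nat.mod_eq_of_lt y.2)
        rw [hN, this, hy2]
      · rintro ⟨a, ha, rfl⟩
        rw [mem_toN] at ha
        obtain ⟨h, h2⟩ := ha
        have : (⟨a % 17, Nat.mod_lt _ (by norm_num)⟩ : Fin 17) = ⟨a, h⟩ :=
          Fin.ext (Nat.mod_eq_of_lt h)
        rw [hN, this]
        exact ⟨(hM true ⟨a, h⟩).2, ⟨a, h⟩, h2, rfl⟩
    have hinj : Set.InjOn hN (toN Y : Set ℕ) := by
      intro a ha b hb hab
      rw [Finset.mem_coe, mem_toN] at ha hb
      obtain ⟨ha, _⟩ := ha
      obtain ⟨hb, _⟩ := hb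
      have h2 := congrArg (hM true) (Fin.ext hab)
      rw [hM_hM, hM_hM] at h2
      have h3 := congrArg Fin.val h2
      simp only at h3
      rwa [Nat.mod_eq_of_lt ha, Nat.mod_eq_of_lt hb] at h3
    unfold MM code
    rw [e, Finset.sum_image hinj]
    rw [zero_add, zero_add] at h1
    rw [h1]

theorem code_bool (p : ℕ → Bool) : code {i : Fin 13 | p i.val = true} =
    ∑ i ∈ (Finset.range 13).filter (fun i => p i = true), 2 ^ i := by
  unfold code
  congr 1
  ext i
  rw [mem_toN, Finset.mem_filter, Finset.mem_range]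
  constructor
  · rintro ⟨h, h2⟩; exact ⟨h, h2⟩
  · rintro ⟨h, h2⟩; exact ⟨h, h2⟩

theorem MM_fib (x : Fin 13) : ¬ MM (old {y | t0 y = t0 x}) := by
  have key : ∀ k : Fin 3, big.testBit (∑ i ∈ (Finset.range 13).filter
      (fun i => (Nat.beq (t17 i) k.val) = true), 2 ^ i) = false := by decide +kernel
  have ht : ∀ y : Fin 13, t0 y = t17 y.val := fun y => rfl
  have hlt : t0 x < 3 := by unfold t0; split_ifs <;> norm_num
  have e : {y : Fin 13 | t0 y = t0 x} = {i : Fin 13 | (Nat.beq (t17 i.val) (t0 x)) = true} := by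
    ext y
    simp only [mem_ofPred_eq, Nat.beq_eq, ht]
  unfold MM
  have h2 : code (old {y : Fin 13 | t0 y = t0 x}) = code {y : Fin 13 | t0 y = t0 x} := by
    unfold code; rw [toN_old]
  rw [h2, e, code_bool (fun i => Nat.beq (t17 i) (t0 x)), key ⟨t0 x, hlt⟩]
  exact Bool.false_ne_true

end Pool.Agent.H73.EY
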