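import Pool.Agent.H73.EY.Glu
import Pool.Agent.H73.EX.Sym

set_option autoImplicit false

/-! # Tied words (helper73)

The coordinates are the elements of `ZMod (2 m)`.  A word consists of a shift `s`, three old
vertices (one of each type), a copy `g` and one bit for each type of new vertices.  The letter at
the coordinate `c` is: for `s + c = 0, 2, 4` one of the old vertices; for `s + c = 1, 3, ..` a new
vertex of the copy `g` or (if the bit is `1`) its image under the swap; otherwise a dummy. -/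

namespace Pool.Agent.H73.EY

open Set Pool.Agent.H73.EX
open Pool.Agent.Y825.EV (Shallow)

/-! ### Symmetries of the glued complex -/

/-- The action of a generator on the new vertices. -/
def s2 (c : Fin 4) : Equiv.Perm (Fin 60 × Fin 4) where
  toFun := act2 c
  invFun := fun p => (pvF c p.1, hz (bF c (pvF c p.1)) p.2)
  left_inv := by
    rintro ⟨g, j⟩
    simp only [act2, pv_pi, hz_hz]
  right_inv := by
    rintro ⟨g, j⟩
    simp only [act2, pi_pv, hz_hz]

/-- The action of a generator. -/
def sg (c : Fin 4) : Equiv.Perm VV := Equiv.sumCongr (gen c) (s2 c)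

theorem hM_old (b : Bool) (i : Fin 17) (h : i.val < 13) :
    hM b i = ⟨(hp b ⟨i.val, h⟩).val, by omega⟩ := dif_pos h

theorem hM_new (b : Bool) (i : Fin 17) (h : ¬ i.val < 13) :
    hM b i = ⟨13 + (hz b ⟨i.val - 13, by omega⟩).val, by omega⟩ := dif_neg h

theorem sg_emb (c : Fin 4) (g : Fin 60) (i : Fin 17) :
    sg c (emb g i) = emb (piF c g) (hM (bF c g) i) := by
  by_cases h : i.val < 13
  · have h2 : (hM (bF c g) i).val < 13 := by
      rw [hM_old _ i h]
      exact (hp (bF c g) ⟨i.val, h⟩).2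
    have e : (⟨(hM (bF c g) i).val, h2⟩ : Fin 13) = hp (bF c g) ⟨i.val, h⟩ := by
      apply Fin.ext
      show (hM (bF c g) i).val = _
      rw [hM_old _ i h]
    rw [emb_old _ i h, emb_old _ _ h2, e, pm_pi]
    rfl
  · have h2 : ¬ (hM (bF c g) i).val < 13 := by
      rw [hM_new _ i h]
      simp
    have e : (⟨(hM (bF c g) i).val - 13, by omega⟩ : Fin 4) =
        hz (bF c g) ⟨i.val - 13, by omega⟩ := by
      apply Fin.ext
      show (hM (bF c g) i).val - 13 = _
      rw [hM_new _ i h]
      simp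
    rw [emb_new _ i h, emb_new _ _ h2, e]
    rfl

theorem SS_sg (c : Fin 4) (A : Set VV) : SS (sg c '' A) ↔ SS A := by
  have key : ∀ g : Fin 60, ((∀ i j, Sum.inr (i, j) ∈ sg c '' A → i = piF c g) ∧
      MM (emb (piF c g) ⁻¹' (sg c '' A))) ↔
      ((∀ i j, Sum.inr (i, j) ∈ A → i = g) ∧ MM (emb g ⁻¹' A)) := by
    intro g
    have e : emb (piF c g) ⁻¹' (sg c '' A) = hM (bF c g) '' (emb g ⁻¹' A) := by
      ext i
      constructor
      · rintro ⟨y, hy, hyi⟩
        have h1 : sg c y = sg c (emb g (hM (bF c g) i)) := by rw [sg_emb, hM_hM, hyi]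
        have h3 := (sg c).injective h1
        refine ⟨hM (bF c g) i, ?_, hM_hM _ _⟩
        show emb g (hM (bF c g) i) ∈ A
        rw [← h3]
        exact hy
      · rintro ⟨i', hi', rfl⟩
        exact ⟨emb g i', hi', sg_emb c g i'⟩
    rw [e, MM_hM]
    refine and_congr_left fun _ => ?_
    constructor
    · intro h i j hij
      have h1 := h (piF c i) (hz (bF c i) j) ⟨_, hij, rfl⟩
      exact (pI c).injective h1
    · rintro h i j ⟨y, hy, hyi⟩
      rcases y with x | ⟨i', j'⟩
      · exact absurd hyi (by simp [sg])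
      · have h1 := h i' j' hy
        have h2 : (piF c i', hz (bF c i') j') = (i, j) := Sum.inr_injective hyi
        have h3 : piF c i' = i := congrArg Prod.fst h2
        rw [← h3, h1]
  constructor
  · rintro ⟨g, hg⟩
    have h1 := key (pvF c g)
    rw [pi_pv] at h1
    exact ⟨_, h1.1 hg⟩
  · rintro ⟨g, hg⟩
    exact ⟨_, (key g).2 hg⟩

/-! ### The words -/

/-- old part of a word. -/
abbrev DO : Type := (t : Fin 3) → {x : Fin 13 // t0 x = t.val}

/-- new part of a word. -/
abbrev DN : Type := Fin 60 × (Fin 3 → Bool)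

/-- base of a type of new vertices. -/
def bj (t : Fin 3) : Fin 4 := (![0, 1, 2] : Fin 3 → Fin 4) t

/-- new vertex of the type `t` given by a copy and a bit. -/
def nv (g : Fin 60) (t : Fin 3) : Bool → VV
  | false => Sum.inr (g, bj t)
  | true => Sum.inr (act2 2 (g, bj t))

section

variable {m : ℕ}

/-- the letter at a position. -/
def ps (i : ZMod (2 * m)) (o : DO) (n : DN) : VV ⊕ ZMod (2 * m) :=
  if h : i.val < 6 ∧ i.val % 2 = 0 then Sum.inl (Sum.inl (o ⟨i.val / 2, by omega⟩).1)
  else if h : i.val < 2 * 3 ∧ i.val % 2 = 1 then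
    Sum.inl (nv n.1 ⟨i.val / 2, by omega⟩ (n.2 ⟨i.val / 2, by omega⟩))
  else Sum.inr i

theorem ps_old (i : ZMod (2 * m)) (o : DO) (n : DN) (h : i.val < 6 ∧ i.val % 2 = 0) :
    ps i o n = Sum.inl (Sum.inl (o ⟨i.val / 2, by omega⟩).1) := dif_pos h

theorem ps_new (i : ZMod (2 * m)) (o : DO) (n : DN) (h : i.val < 2 * 3 ∧ i.val % 2 = 1) :
    ps i o n = Sum.inl (nv n.1 ⟨i.val / 2, by omega⟩ (n.2 ⟨i.val / 2, by omega⟩)) := by
  unfold ps
  rw [dif_neg (by omega), dif_pos h]

theorem ps_dum (i : ZMod (2 * m)) (o : DO) (n : DN) (h1 : ¬ (i.val < 6 ∧ i.val % 2 = 0))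
    (h2 : ¬ (i.val < 2 * 3 ∧ i.val % 2 = 1)) : ps i o n = Sum.inr i := by
  unfold ps
  rw [dif_neg h1, dif_neg h2]

theorem ps_upd_old [NeZero m] (i i0 : ZMod (2 * m)) (o : DO) (n : DN)
    (h : i0.val < 6 ∧ i0.val % 2 = 0)
    (y : {x : Fin 13 // t0 x = i0.val / 2}) (hi : i ≠ i0) :
    ps i (Function.update o ⟨i0.val / 2, by omega⟩ y) n = ps i o n := by
  have hv : i.val ≠ i0.val := fun e => hi (ZMod.val_injective _ e)
  by_cases h1 : i.val < 6 ∧ i.val % 2 = 0
  · rw [ps_old i _ _ h1, ps_old i _ _ h1, Function.update_of_ne]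
    intro e
    have := congrArg Fin.val e
    simp only at this
    omega
  · by_cases h2 : i.val < 2 * 3 ∧ i.val % 2 = 1
    · rw [ps_new i _ _ h2, ps_new i _ _ h2]
    · rw [ps_dum i _ _ h1 h2, ps_dum i _ _ h1 h2]

theorem ps_upd_new [NeZero m] (i i0 : ZMod (2 * m)) (o : DO) (n : DN)
    (h : i0.val < 2 * 3 ∧ i0.val % 2 = 1) (b : Bool) (hi : i ≠ i0) :
    ps i o (n.1, Function.update n.2 ⟨i0.val / 2, by omega⟩ b) = ps i o n := by
  have hv : i.val ≠ i0.val := fun e => hi (ZMod.val_injective _ e)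
  by_cases h1 : i.val < 6 ∧ i.val % 2 = 0
  · rw [ps_old i _ _ h1, ps_old i _ _ h1]
  · by_cases h2 : i.val < 2 * 3 ∧ i.val % 2 = 1
    · rw [ps_new i _ _ h2, ps_new i _ _ h2]
      dsimp only
      rw [Function.update_of_ne]
      intro e
      have := congrArg Fin.val e
      simp only at this
      omega
    · rw [ps_dum i _ _ h1 h2, ps_dum i _ _ h1 h2]

/-- Words. -/
abbrev WD (m : ℕ) : Type := ZMod (2 * m) × DO × DN

/-- The letters of a word. -/
def lt (w : WD m) (c : ZMod (2 * m)) : VV ⊕ ZMod (2 * m) := ps (w.1 + c) w.2.1 w.2.2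

/-- The complex with dummies. -/
def SD (X : Set (VV ⊕ ZMod (2 * m))) : Prop := SS (Sum.inl ⁻¹' X) ∧
  ∀ i : ZMod (2 * m), ¬ (i.val < 6 ∧ i.val % 2 = 0) → ¬ (i.val < 2 * 3 ∧ i.val % 2 = 1) →
    Sum.inr i ∉ X

/-- Letters which may be exchanged. -/
def ED (u v : VV ⊕ ZMod (2 * m)) : Prop := ∃ u' v', u = Sum.inl u' ∧ v = Sum.inl v' ∧ EE u' v'

theorem EE_nv (g : Fin 60) (t : Fin 3) (b : Bool) (v : VV) (h : EE (nv g t b) v) :
    v = nv g t (!b) := by
  cases b
  · rcases v with x | p
    · exact absurd h (fun h => h)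
    · have h1 : p = act2 2 (g, bj t) := h
      rw [h1]
      rfl
  · rcases v with x | p
    · exact absurd h (fun h => h)
    · have h1 : p = act2 2 (act2 2 (g, bj t)) := h
      rw [h1, act_act]
      rfl

theorem hex [NeZero m] (w : WD m) (c : ZMod (2 * m)) (v : VV ⊕ ZMod (2 * m))
    (h : ED (lt w c) v) : ∃ z : WD m, lt z c = v ∧ ∀ d, d ≠ c → lt z d = lt w d := by
  obtain ⟨s, o, n⟩ := w
  obtain ⟨u', v', hu, rfl, he⟩ := h
  have hu' : ps (s + c) o n = Sum.inl u' := hu
  have hne : ∀ d, d ≠ c → s + d ≠ s + c := fun d hd e => hd (add_left_cancel e)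
  by_cases h1 : (s + c).val < 6 ∧ (s + c).val % 2 = 0
  · rw [ps_old _ _ _ h1] at hu'
    have hu2 := Sum.inl_injective hu'
    rw [← hu2] at he
    rcases v' with y | p
    · have h2 : t0 (o ⟨(s + c).val / 2, by omega⟩).1 = t0 y := he
      rw [(o ⟨(s + c).val / 2, by omega⟩).2] at h2
      refine ⟨(s, Function.update o ⟨(s + c).val / 2, by omega⟩ ⟨y, h2.symm⟩, n), ?_, ?_⟩
      · show ps (s + c) _ n = _
        rw [ps_old _ _ _ h1]
        dsimp only
        rw [Function.update_self]
      · intro d hd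
        exact ps_upd_old _ (s + c) o n h1 ⟨y, h2.symm⟩ (hne d hd)
    · exact absurd he (fun h => h)
  · by_cases h2 : (s + c).val < 2 * 3 ∧ (s + c).val % 2 = 1
    · rw [ps_new _ _ _ h2] at hu'
      have hu2 := Sum.inl_injective hu'
      rw [← hu2] at he
      have h3 := EE_nv _ _ _ _ he
      refine ⟨(s, o, (n.1, Function.update n.2 ⟨(s + c).val / 2, by omega⟩
        (!(n.2 ⟨(s + c).val / 2, by omega⟩)))), ?_, ?_⟩
      · show ps (s + c) o _ = _
        rw [ps_new _ _ _ h2, h3]
        dsimp only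
        rw [Function.update_self]
      · intro d hd
        exact ps_upd_new _ (s + c) o n h2 _ (hne d hd)
    · rw [ps_dum _ _ _ h1 h2] at hu'
      exact absurd hu' (by simp)

theorem SD_down (A B : Set (VV ⊕ ZMod (2 * m))) (hAB : A ⊆ B) (h : SD B) : SD A :=
  ⟨SS_down _ _ (Set.preimage_mono hAB) h.1, fun i h1 h2 h3 => h.2 i h1 h2 (hAB h3)⟩

theorem w1_lift {T N : Set VV} (h : W1 EE SS T N) :
    W1 (ED (m := m)) SD (Sum.inl '' T) (Sum.inl '' N) := by
  induction h with
  | leaf T N w hT hN u hu huv h =>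
    refine W1.leaf _ _ (Sum.inl w) ?_ ?_ (Sum.inl u) ⟨u, hu, rfl⟩ ⟨u, w, rfl, rfl, huv⟩ ?_
    · rintro ⟨x, hx, hxw⟩
      exact hT (Sum.inl_injective hxw ▸ hx)
    · rintro ⟨x, hx, hxw⟩
      exact hN (Sum.inl_injective hxw ▸ hx)
    · intro X hTX hXN
      have h1 := h (Sum.inl ⁻¹' X) (fun x hx => hTX ⟨x, hx, rfl⟩) (by
        rw [Set.disjoint_left]
        intro x hx hxN
        exact Set.disjoint_left.1 hXN hx ⟨x, hxN, rfl⟩)
      have e1 : (Sum.inl ⁻¹' (insert (Sum.inl w) X) : Set VV) = insert w (Sum.inl ⁻¹' X) := by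
        ext x
        simp
      have e2 : (Sum.inl ⁻¹' (X \ {Sum.inl w}) : Set VV) = (Sum.inl ⁻¹' X) \ {w} := by
        ext x
        simp
      unfold SD
      rw [e1, e2, h1]
      refine and_congr_right fun _ => forall_congr' fun j => ?_
      simp
  | query T N w hT hN _ _ ih1 ih2 =>
    refine W1.query _ _ (Sum.inl w) ?_ ?_ ?_ ?_
    · rintro ⟨x, hx, hxw⟩
      exact hT (Sum.inl_injective hxw ▸ hx)
    · rintro ⟨x, hx, hxw⟩
      exact hN (Sum.inl_injective hxw ▸ hx)
    · rw [Set.image_insert_eq] at ih1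
      exact ih1
    · rw [Set.image_insert_eq] at ih2
      exact ih2

/-! ### Transitivity -/

theorem SD_congr (σ : Equiv.Perm VV) (hσ : ∀ A : Set VV, SS (σ '' A) ↔ SS A)
    (A : Set (VV ⊕ ZMod (2 * m))) :
    SD ((Equiv.sumCongr σ (Equiv.refl (ZMod (2 * m)))) '' A) ↔ SD A := by
  have e1 : Sum.inl ⁻¹' ((Equiv.sumCongr σ (Equiv.refl (ZMod (2 * m)))) '' A) =
      σ '' (Sum.inl ⁻¹' A) := by
    ext z
    constructor
    · rintro ⟨w, hw, hwz⟩
      rcases w with w | w
      · exact ⟨w, hw, Sum.inl_injective hwz⟩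
      · exact absurd hwz (by simp)
    · rintro ⟨w, hw, rfl⟩
      exact ⟨Sum.inl w, hw, rfl⟩
  have e2 : ∀ j : ZMod (2 * m), (Sum.inr j ∈
      (Equiv.sumCongr σ (Equiv.refl (ZMod (2 * m)))) '' A) ↔ Sum.inr j ∈ A := by
    intro j
    constructor
    · rintro ⟨w, hw, hwz⟩
      rcases w with w | w
      · exact absurd hwz (by simp)
      · have : w = j := Sum.inr_injective hwz
        exact this ▸ hw
    · intro hj
      exact ⟨Sum.inr j, hj, rfl⟩
  unfold SD
  rw [e1, hσ]
  refine and_congr_right fun _ => forall_congr' fun j => ?_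
  rw [e2]

/-- A family of permutations of the data gives a symmetry. -/
theorem rw_of (τ : ZMod (2 * m) → Equiv.Perm (DO × DN)) (g : ZMod (2 * m) → Equiv.Perm VV)
    (hg : ∀ c (A : Set VV), SS (g c '' A) ↔ SS A)
    (h : ∀ s o n c, ps (s + c) (τ s (o, n)).1 (τ s (o, n)).2 =
      (Equiv.sumCongr (g c) (Equiv.refl (ZMod (2 * m)))) (ps (s + c) o n)) (w : WD m) :
    Rw (lt (m := m)) SD w (w.1, τ w.1 w.2) := by
  refine ⟨Equiv.prodShear (Equiv.refl _) τ, fun X => ?_, rfl⟩
  refine Sy.ff _ _ ⟨Equiv.refl _, fun c => Equiv.sumCongr (g c) (Equiv.refl _), ?_, ?_⟩ X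
  · rintro ⟨s, o, n⟩ c
    exact h s o n c
  · intro c A
    exact SD_congr (g c) (hg c) A

theorem rw_rot (s r : ZMod (2 * m)) (d : DO × DN) :
    Rw (lt (m := m)) SD (s, d) (s - r, d) := by
  refine ⟨Equiv.prodCongr (Equiv.subRight r) (Equiv.refl _), fun X => ?_, rfl⟩
  refine Sy.ff _ _ ⟨Equiv.addRight r, fun _ => Equiv.refl _, ?_, fun c A => by simp⟩ X
  rintro ⟨s, o, n⟩ c
  show ps (s - r + (c + r)) o n = ps (s + c) o n
  congr 1
  ring

/-- parity. -/
def par : ZMod (2 * m) →+* ZMod 2 := ZMod.castHom (dvd_mul_right 2 m) (ZMod 2)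

theorem par_val [NeZero m] (i : ZMod (2 * m)) : par i = (i.val : ZMod 2) := by
  conv_lhs => rw [← ZMod.natCast_zmod_val i]
  rw [map_natCast]

theorem par_even [NeZero m] (i : ZMod (2 * m)) (h : i.val % 2 = 0) : par i = 0 := by
  rw [par_val, ZMod.natCast_eq_zero_iff]
  exact Nat.dvd_of_mod_eq_zero h

theorem par_odd [NeZero m] (i : ZMod (2 * m)) (h : i.val % 2 = 1) : par i = 1 := by
  rw [par_val]
  have h2 : i.val = 2 * (i.val / 2) + 1 := by omega
  rw [h2]
  push_cast
  have h3 : (2 : ZMod 2) = 0 := by decide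
  rw [h3, zero_mul, zero_add]

theorem zz (a b : ZMod 2) (h : a + b = 0) : a = b := by revert a b; decide

theorem zo (a b : ZMod 2) (h : a + b = 1) : a ≠ b := by revert a b; decide

/-- action of a generator on an old letter. -/
def sb (c : Fin 4) (t : Fin 3) : Equiv.Perm {x : Fin 13 // t0 x = t.val} :=
  Equiv.subtypeEquiv (gen c) (fun a => by rw [t0_gen])

/-- action of a generator on the old part. -/
def aO (c : Fin 4) : Equiv.Perm DO := Equiv.piCongrRight fun t => sb c t

/-- action of a generator on the new part. -/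
def aN (c : Fin 4) : Equiv.Perm DN := Equiv.prodCongr (pI c) (Equiv.refl _)

theorem act_comm : ∀ c : Fin 4, c.val < 2 → ∀ g : Fin 60, piF 2 (piF c g) = piF c (piF 2 g) ∧
    bF c g = false := by decide +kernel

theorem sg_nv (c : Fin 4) (hc : c.val < 2) (g : Fin 60) (t : Fin 3) (b : Bool) :
    nv (piF c g) t b = sg c (nv g t b) := by
  cases b
  · show Sum.inr (piF c g, bj t) = Sum.inr (act2 c (g, bj t))
    unfold act2
    rw [(act_comm c hc g).2]
    rfl
  · show Sum.inr (act2 2 (piF c g, bj t)) = Sum.inr (act2 c (act2 2 (g, bj t)))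
    simp only [act2, bF_two]
    rw [(act_comm c hc g).1, (act_comm c hc _).2]
    rfl

theorem rw_old [NeZero m] (c0 : Fin 4) (hc : c0.val < 2) (s : ZMod (2 * m)) (o : DO)
    (n : DN) : Rw (lt (m := m)) SD (s, o, n) (s, aO c0 o, n) := by
  classical
  have key := rw_of (m := m) (fun s' => if par s' = par s then
      Equiv.prodCongr (aO c0) (Equiv.refl DN) else Equiv.prodCongr (Equiv.refl DO) (aN c0))
    (fun c => if par c = par s then sg c0 else Equiv.refl _) ?_ ?_ (s, o, n)
  · simpa using key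
  · intro c A
    split_ifs
    · exact SS_sg c0 A
    · simp
  · intro s' o n c
    by_cases h1 : (s' + c).val < 6 ∧ (s' + c).val % 2 = 0
    · have h2 : par s' = par c := zz _ _ (by rw [← map_add]; exact par_even _ h1.2)
      rw [← h2]
      by_cases h3 : par s' = par s
      · rw [if_pos h3, if_pos h3, ps_old _ _ _ h1, ps_old _ _ _ h1]
        rfl
      · rw [if_neg h3, if_neg h3, ps_old _ _ _ h1, ps_old _ _ _ h1]
        rfl
    · by_cases h2 : (s' + c).val < 2 * 3 ∧ (s' + c).val % 2 = 1
      · have h3 : par s' ≠ par c := zo _ _ (by rw [← map_add]; exact par_odd _ h2.2)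
        by_cases h4 : par s' = par s
        · have h5 : ¬ par c = par s := fun e => h3 (h4.trans e.symm)
          rw [if_pos h4, if_neg h5, ps_new _ _ _ h2, ps_new _ _ _ h2]
          rfl
        · have h5 : par c = par s := by
            have : ∀ a b c : ZMod 2, a ≠ b → a ≠ c → b = c := by decide
            exact this _ _ _ h3 h4
          rw [if_neg h4, if_pos h5, ps_new _ _ _ h2, ps_new _ _ _ h2]
          show Sum.inl (nv (piF c0 n.1) _ _) = Sum.inl (sg c0 (nv n.1 _ _))
          rw [sg_nv c0 hc]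
          rfl
      · rw [ps_dum _ _ _ h1 h2, ps_dum _ _ _ h1 h2]
        rfl

theorem rw_new [NeZero m] (c0 : Fin 4) (hc : c0.val < 2) (s : ZMod (2 * m)) (o : DO)
    (n : DN) : Rw (lt (m := m)) SD (s, o, n) (s, o, aN c0 n) := by
  classical
  have key := rw_of (m := m) (fun s' => if par s' = par s then
      Equiv.prodCongr (Equiv.refl DO) (aN c0) else Equiv.prodCongr (aO c0) (Equiv.refl DN))
    (fun c => if par c = par s then Equiv.refl _ else sg c0) ?_ ?_ (s, o, n)
  · simpa using key
  · intro c A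
    split_ifs
    · simp
    · exact SS_sg c0 A
  · intro s' o n c
    by_cases h1 : (s' + c).val < 6 ∧ (s' + c).val % 2 = 0
    · have h2 : par s' = par c := zz _ _ (by rw [← map_add]; exact par_even _ h1.2)
      rw [← h2]
      by_cases h3 : par s' = par s
      · rw [if_pos h3, if_pos h3, ps_old _ _ _ h1, ps_old _ _ _ h1]
        rfl
      · rw [if_neg h3, if_neg h3, ps_old _ _ _ h1, ps_old _ _ _ h1]
        rfl
    · by_cases h2 : (s' + c).val < 2 * 3 ∧ (s' + c).val % 2 = 1
      · have h3 : par s' ≠ par c := zo _ _ (by rw [← map_add]; exact par_odd _ h2.2)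
        by_cases h4 : par s' = par s
        · have h5 : ¬ par c = par s := fun e => h3 (h4.trans e.symm)
          rw [if_pos h4, if_neg h5, ps_new _ _ _ h2, ps_new _ _ _ h2]
          show Sum.inl (nv (piF c0 n.1) _ _) = Sum.inl (sg c0 (nv n.1 _ _))
          rw [sg_nv c0 hc]
          rfl
        · have h5 : par c = par s := by
            have : ∀ a b c : ZMod 2, a ≠ b → a ≠ c → b = c := by decide
            exact this _ _ _ h3 h4
          rw [if_neg h4, if_pos h5, ps_new _ _ _ h2, ps_new _ _ _ h2]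
          rfl
      · rw [ps_dum _ _ _ h1 h2, ps_dum _ _ _ h1 h2]
        rfl

theorem sg_two_nv (g : Fin 60) (t : Fin 3) (b : Bool) : nv g t (!b) = sg 2 (nv g t b) := by
  cases b
  · rfl
  · show Sum.inr (g, bj t) = Sum.inr (act2 2 (act2 2 (g, bj t)))
    rw [act_act]

/-- flip of a bit. -/
def flp (t : Fin 3) : Equiv.Perm (Fin 3 → Bool) :=
  Function.Involutive.toPerm (fun e => Function.update e t (!(e t))) (fun e => by
    funext i
    by_cases h : i = t
    · subst h; simp
    · simp [h])

/-- action of the swap on one old letter. -/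
def upO (t : Fin 3) : Equiv.Perm DO where
  toFun o := Function.update o t (sb 2 t (o t))
  invFun o := Function.update o t ((sb 2 t).symm (o t))
  left_inv o := by simp
  right_inv o := by simp

open Classical in
/-- action of the swap at one position. -/
noncomputable def Fp (i : ZMod (2 * m)) : Equiv.Perm (DO × DN) :=
  if h : i.val < 6 ∧ i.val % 2 = 0 then
    Equiv.prodCongr (upO ⟨i.val / 2, by omega⟩) (Equiv.refl DN)
  else if h : i.val < 2 * 3 ∧ i.val % 2 = 1 then
    Equiv.prodCongr (Equiv.refl DO) (Equiv.prodCongr (Equiv.refl _) (flp ⟨i.val / 2, by omega⟩))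
  else Equiv.refl _

theorem rw_swap [NeZero m] (i0 s : ZMod (2 * m)) (d : DO × DN) :
    Rw (lt (m := m)) SD (s, d) (s, Fp i0 d) := by
  classical
  have key := rw_of (m := m) (fun s' => Fp (s' + (i0 - s)))
    (fun c => if c = i0 - s then sg 2 else Equiv.refl _) ?_ ?_ (s, d)
  · have e : s + (i0 - s) = i0 := by ring
    rw [show ((s, d) : WD m).1 = s from rfl, show ((s, d) : WD m).2 = d from rfl, e] at key
    exact key
  · intro c A
    split_ifs
    · exact SS_sg 2 A
    · simp
  · intro s' o n c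
    by_cases hc : c = i0 - s
    · subst hc
      rw [if_pos rfl]
      generalize s' + (i0 - s) = i
      by_cases h1 : i.val < 6 ∧ i.val % 2 = 0
      · unfold Fp
        rw [dif_pos h1, ps_old _ _ _ h1, ps_old _ _ _ h1]
        show Sum.inl (Sum.inl (Function.update o _ _ _).1) = _
        rw [Function.update_self]
        rfl
      · by_cases h2 : i.val < 2 * 3 ∧ i.val % 2 = 1
        · unfold Fp
          rw [dif_neg h1, dif_pos h2, ps_new _ _ _ h2, ps_new _ _ _ h2]
          show Sum.inl (nv n.1 _ (Function.update n.2 _ _ _)) = Sum.inl (sg 2 (nv n.1 _ _))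
          rw [Function.update_self, sg_two_nv]
        · unfold Fp
          rw [dif_neg h1, dif_neg h2, ps_dum _ _ _ h1 h2, ps_dum _ _ _ h1 h2]
          rfl
    · rw [if_neg hc]
      have hne : s' + c ≠ s' + (i0 - s) := fun e => hc (add_left_cancel e)
      generalize s' + (i0 - s) = i at hne
      have e : ∀ x : VV ⊕ ZMod (2 * m),
          (Equiv.sumCongr (Equiv.refl VV) (Equiv.refl (ZMod (2 * m)))) x = x := by
        rintro (x | x) <;> rfl
      rw [e]
      by_cases h1 : i.val < 6 ∧ i.val % 2 = 0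
      · unfold Fp
        rw [dif_pos h1]
        exact ps_upd_old _ i o n h1 _ hne
      · by_cases h2 : i.val < 2 * 3 ∧ i.val % 2 = 1
        · unfold Fp
          rw [dif_neg h1, dif_pos h2]
          exact ps_upd_new _ i o n h2 _ hne
        · unfold Fp
          rw [dif_neg h1, dif_neg h2]
          rfl

theorem pa_spec2 : ∀ g : Fin 60, paF g = g ∨ ∃ c : Fin 4, c.val < 2 ∧ piF c (paF g) = g := by
  decide +kernel

/-- Generation. -/
theorem gen_ind2 (P : Fin 60 → Prop) (h0 : P 0)
    (hs : ∀ c : Fin 4, c.val < 2 → ∀ g, P g → P (piF c g)) : ∀ g, P g := by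
  have h1 : ∀ g, P (paF g) → P g := by
    intro g hg
    rcases pa_spec2 g with h | ⟨c, hc, h⟩
    · rwa [h] at hg
    · rw [← h]; exact hs c hc _ hg
  have h2 : ∀ n g, P (paF^[n] g) → P g := by
    intro n
    induction n with
    | zero => exact fun g h => h
    | succ n ih =>
      intro g h
      rw [Function.iterate_succ_apply] at h
      exact h1 g (ih _ h)
  intro g
  apply h2 9
  rw [pa_iter]
  exact h0

theorem rw_copy [NeZero m] (s : ZMod (2 * m)) (o : DO) (e : Fin 3 → Bool) :
    ∀ g : Fin 60, Rw (lt (m := m)) SD (s, o, (0, e)) (s, o, (g, e)) :=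
  gen_ind2 _ (Rw.refl _ _ _) fun c hc g h => h.trans (rw_new c hc s o (g, e))

theorem rw_flip (hm : 3 ≤ m) (s : ZMod (2 * m)) (o : DO) (g : Fin 60) (e : Fin 3 → Bool)
    (t : Fin 3) : Rw (lt (m := m)) SD (s, o, (g, e)) (s, o, (g, Function.update e t (!(e t)))) := by
  have : NeZero m := ⟨by omega⟩
  have ht := t.2
  have hi : ((2 * t.val + 1 : ℕ) : ZMod (2 * m)).val = 2 * t.val + 1 :=
    ZMod.val_natCast_of_lt (by omega)
  have key := rw_swap (m := m) ((2 * t.val + 1 : ℕ) : ZMod (2 * m)) s (o, (g, e))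
  have h2 : Fp ((2 * t.val + 1 : ℕ) : ZMod (2 * m)) (o, (g, e)) =
      (o, (g, Function.update e t (!(e t)))) := by
    unfold Fp
    rw [dif_neg (by omega), dif_pos (by omega)]
    have h3 : ∀ h, (⟨((2 * t.val + 1 : ℕ) : ZMod (2 * m)).val / 2, h⟩ : Fin 3) = t :=
      fun h => Fin.ext (by simp only; omega)
    rw [h3]
    rfl
  rw [h2] at key
  exact key

theorem rw_flipO (hm : 3 ≤ m) (s : ZMod (2 * m)) (o : DO) (n : DN) (t : Fin 3) :
    Rw (lt (m := m)) SD (s, o, n) (s, Function.update o t (sb 2 t (o t)), n) := by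
  have : NeZero m := ⟨by omega⟩
  have ht := t.2
  have hi : ((2 * t.val : ℕ) : ZMod (2 * m)).val = 2 * t.val :=
    ZMod.val_natCast_of_lt (by omega)
  have key := rw_swap (m := m) ((2 * t.val : ℕ) : ZMod (2 * m)) s (o, n)
  have h2 : Fp ((2 * t.val : ℕ) : ZMod (2 * m)) (o, n) =
      (Function.update o t (sb 2 t (o t)), n) := by
    unfold Fp
    rw [dif_pos (by omega)]
    have h3 : ∀ h, (⟨((2 * t.val : ℕ) : ZMod (2 * m)).val / 2, h⟩ : Fin 3) = t :=
      fun h => Fin.ext (by simp only; omega)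
    rw [h3]
    rfl
  rw [h2] at key
  exact key

theorem rw_bits (hm : 3 ≤ m) (s : ZMod (2 * m)) (o : DO) (g : Fin 60) (e : Fin 3 → Bool) :
    Rw (lt (m := m)) SD (s, o, (g, e)) (s, o, (g, fun _ => false)) := by
  have key : ∀ n : ℕ, Rw (lt (m := m)) SD (s, o, (g, e))
      (s, o, (g, fun t => if t.val < n then false else e t)) := by
    intro n
    induction n with
    | zero => simpa using Rw.refl _ _ _
    | succ n ih =>
      refine ih.trans ?_
      by_cases hn : n < 3
      · by_cases he : e ⟨n, hn⟩ = true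
        · have h := rw_flip hm s o g (fun t => if t.val < n then false else e t) ⟨n, hn⟩
          have h2 : Function.update (fun t : Fin 3 => if t.val < n then false else e t) ⟨n, hn⟩
              (!((fun t : Fin 3 => if t.val < n then false else e t) ⟨n, hn⟩)) =
              fun t => if t.val < n + 1 then false else e t := by
            funext t
            by_cases ht : t = ⟨n, hn⟩
            · subst ht
              simp [he]
            · have hv : t.val ≠ n := fun h => ht (Fin.ext h)
              rw [Function.update_of_ne ht]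
              by_cases h3 : t.val < n
              · rw [if_pos h3, if_pos (by omega)]
              · rw [if_neg h3, if_neg (by omega)]
          rwa [h2] at h
        · have h2 : (fun t : Fin 3 => if t.val < n then false else e t) =
              fun t => if t.val < n + 1 then false else e t := by
            funext t
            by_cases h3 : t.val < n
            · rw [if_pos h3, if_pos (by omega)]
            · by_cases h4 : t.val = n
              · have : t = ⟨n, hn⟩ := Fin.ext h4
                subst this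
                rw [if_neg h3, if_pos (by simp)]
                exact Bool.eq_false_iff.2 he
              · rw [if_neg h3, if_neg (by omega)]
          rw [h2]
          exact Rw.refl _ _ _
      · have h2 : (fun t : Fin 3 => if t.val < n then false else e t) =
            fun t => if t.val < n + 1 then false else e t := by
          funext t
          have := t.2
          rw [if_pos (by omega), if_pos (by omega)]
        rw [h2]
        exact Rw.refl _ _ _
  have h := key 3
  have h2 : (fun t : Fin 3 => if t.val < 3 then false else e t) = fun _ => false := by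
    funext t
    rw [if_pos t.2]
  rwa [h2] at h

theorem t0_pm : ∀ g : Fin 60, ∀ x : Fin 13, t0 (pm g x) = t0 x := by decide +kernel

theorem pm_last : ∀ g : Fin 60, pm g 11 = 11 := by decide +kernel

theorem o_reach : ∀ x y : Fin 13, t0 x = 0 → t0 y = 1 → ∃ g : Fin 60, pm g 0 = x ∧ pm g 5 = y := by
  decide +kernel

theorem ob_aux : ∀ t : Fin 3, t0 ((![0, 5, 11] : Fin 3 → Fin 13) t) = t.val := by decide +kernel

/-- base of the old part. -/
def ob : DO := fun t => ⟨(![0, 5, 11] : Fin 3 → Fin 13) t, ob_aux t⟩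

/-- the image of the base. -/
def og (g : Fin 60) : DO := fun t => ⟨pm g (ob t).1, by rw [t0_pm]; exact (ob t).2⟩

theorem rw_og [NeZero m] (s : ZMod (2 * m)) (n : DN) :
    ∀ g : Fin 60, Rw (lt (m := m)) SD (s, ob, n) (s, og g, n) := by
  apply gen_ind2
  · have h : og 0 = ob := funext fun t => Subtype.ext (pm_zero _)
    rw [h]
    exact Rw.refl _ _ _
  · intro c hc g h
    refine h.trans ?_
    have h2 : og (piF c g) = aO c (og g) := by
      funext t
      apply Subtype.ext
      have h3 := pm_pi c g (ob t).1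
      rw [(act_comm c hc g).2] at h3
      exact h3
    rw [h2]
    exact rw_old c hc s _ n

theorem g11 : ∀ z : Fin 13, t0 z = 2 → z ≠ 11 → gen 2 11 = z := by decide +kernel

theorem rw_ob (hm : 3 ≤ m) (s : ZMod (2 * m)) (o : DO) (n : DN) :
    Rw (lt (m := m)) SD (s, ob, n) (s, o, n) := by
  have : NeZero m := ⟨by omega⟩
  obtain ⟨g, h0, h1⟩ := o_reach (o 0).1 (o 1).1 (o 0).2 (o 1).2
  have h2 := rw_og (m := m) s n g
  by_cases hz : (o 2).1 = 11
  · have e : og g = o := by
      funext t
      apply Subtype.ext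
      fin_cases t
      · exact h0
      · exact h1
      · exact (pm_last g).trans hz.symm
    rwa [e] at h2
  · refine h2.trans ?_
    have h3 := rw_flipO hm s (og g) n 2
    have e : Function.update (og g) 2 (sb 2 2 (og g 2)) = o := by
      funext t
      fin_cases t
      · exact Subtype.ext h0
      · exact Subtype.ext h1
      · apply Subtype.ext
        show gen 2 (pm g 11) = (o 2).1
        rw [pm_last]
        exact g11 _ (o 2).2 hz
    rwa [e] at h3

theorem rw_all (hm : 3 ≤ m) (w w' : WD m) : Rw (lt (m := m)) SD w w' := by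
  have : NeZero m := ⟨by omega⟩
  have key : ∀ w : WD m, Rw (lt (m := m)) SD w (0, ob, (0, fun _ => false)) := by
    rintro ⟨s, o, g, e⟩
    have h1 := (rw_bits hm s o g e).trans (rw_copy s o (fun _ => false) g).symm
    have h2 := h1.trans (rw_ob hm s o (0, fun _ => false)).symm
    have h3 := rw_rot s s ((ob, (0, fun _ => false)) : DO × DN)
    rw [sub_self] at h3
    exact h2.trans h3
  exact (key w).trans (key w').symm

theorem bj_spec : ∀ j : Fin 4, ∃ t : Fin 3, j = bj t ∨ j = hz true (bj t) := by decide +kernel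

theorem cov_new (g : Fin 60) (j : Fin 4) : ∃ g' t b, nv g' t b = Sum.inr (g, j) := by
  obtain ⟨t, h | h⟩ := bj_spec j
  · exact ⟨g, t, false, by rw [h]; rfl⟩
  · refine ⟨piF 2 g, t, true, ?_⟩
    show Sum.inr (act2 2 (piF 2 g, bj t)) = _
    unfold act2
    rw [h]
    simp only [pi2_pi2, bF_two]

theorem cov (hm : 3 ≤ m) : SD {v | ∀ w : WD m, lt w 0 ≠ v} := by
  have : NeZero m := ⟨by omega⟩
  constructor
  · have e : (Sum.inl ⁻¹' {v | ∀ w : WD m, lt w 0 ≠ v} : Set VV) = ∅ := by
      rw [Set.eq_empty_iff_forall_notMem]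
      intro v hv
      rcases v with x | ⟨g, j⟩
      · have hx := t0_lt x
        have hi : ((2 * t0 x : ℕ) : ZMod (2 * m)).val = 2 * t0 x :=
          ZMod.val_natCast_of_lt (by omega)
        refine hv (((2 * t0 x : ℕ) : ZMod (2 * m)),
          Function.update ob ⟨t0 x, hx⟩ ⟨x, rfl⟩, (0, fun _ => false)) ?_
        show ps (((2 * t0 x : ℕ) : ZMod (2 * m)) + 0) _ _ = _
        rw [add_zero, ps_old _ _ _ (by omega)]
        have h3 : ∀ h, (⟨((2 * t0 x : ℕ) : ZMod (2 * m)).val / 2, h⟩ : Fin 3) = ⟨t0 x, hx⟩ :=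
          fun h => Fin.ext (by simp only; omega)
        rw [h3]
        dsimp only
        rw [Function.update_self]
      · obtain ⟨g', t, b, h⟩ := cov_new g j
        have ht := t.2
        have hi : ((2 * t.val + 1 : ℕ) : ZMod (2 * m)).val = 2 * t.val + 1 :=
          ZMod.val_natCast_of_lt (by omega)
        refine hv (((2 * t.val + 1 : ℕ) : ZMod (2 * m)), ob, (g', fun _ => b)) ?_
        show ps (((2 * t.val + 1 : ℕ) : ZMod (2 * m)) + 0) _ _ = _
        rw [add_zero, ps_new _ _ _ (by omega)]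
        have h3 : ∀ h, (⟨((2 * t.val + 1 : ℕ) : ZMod (2 * m)).val / 2, h⟩ : Fin 3) = t :=
          fun h => Fin.ext (by simp only; omega)
        rw [h3]
        show Sum.inl (nv g' t b) = _
        rw [h]
    rw [e]
    exact SS_empty
  · intro i h1 h2 h
    refine h (i, ob, (0, fun _ => false)) ?_
    show ps (i + 0) _ _ = _
    rw [add_zero, ps_dum _ _ _ h1 h2]

theorem avoid (c : ZMod (2 * m)) : lt (((0 : ZMod (2 * m)), ob, (0, fun _ => false)) : WD m) c ≠
    Sum.inl aa ∧ lt (((0 : ZMod (2 * m)), ob, (0, fun _ => false)) : WD m) c ≠ Sum.inl ab := by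
  have key : ∀ (g : Fin 60) (j : Fin 4), g ≠ 0 →
      lt (((0 : ZMod (2 * m)), ob, (0, fun _ => false)) : WD m) c ≠ Sum.inl (Sum.inr (g, j)) := by
    intro g j hg h
    have h' : ps (0 + c) ob (0, fun _ => false) = Sum.inl (Sum.inr (g, j)) := h
    by_cases h1 : (0 + c).val < 6 ∧ (0 + c).val % 2 = 0
    · rw [ps_old _ _ _ h1] at h'
      exact absurd (Sum.inl_injective h') (by simp)
    · by_cases h2 : (0 + c).val < 2 * 3 ∧ (0 + c).val % 2 = 1
      · rw [ps_new _ _ _ h2] at h'
        have h3 : (Sum.inr (0, bj _) : VV) = Sum.inr (g, j) := Sum.inl_injective h'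
        exact hg (congrArg Prod.fst (Sum.inr_injective h3)).symm
      · rw [ps_dum _ _ _ h1 h2] at h'
        exact absurd h' (by simp)
  exact ⟨key _ _ (pi2_ne 0), key _ _ (by decide)⟩

theorem card_DO : Nat.card DO = 60 := by
  rw [Nat.card_eq_fintype_card]
  decide +kernel

theorem card_WD (hm : 3 ≤ m) : Nat.card (WD m) = m * 57600 := by
  have : NeZero m := ⟨by omega⟩
  have h1 : Nat.card DN = 480 := by
    rw [Nat.card_eq_fintype_card]
    simp [DN]
  rw [Nat.card_prod, Nat.card_prod, Nat.card_zmod, card_DO, h1]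
  ring

/-- For every `m ≥ 3` the number `57600 m` works. -/
theorem main (m : ℕ) (hm : 3 ≤ m) : 2 ≤ m * 57600 ∧ ∀ r j : ℕ, 1 ≤ r →
    Shallow (r * (m * 57600) ^ j) (r * (m * 57600 - 1) ^ j) := by
  have : NeZero m := ⟨by omega⟩
  have hw1 := w1_lift (m := m) w1_a
  have hw2 := w1_lift (m := m) w1_ab
  rw [Set.image_empty, Set.image_singleton] at hw1
  rw [Set.image_singleton, Set.image_singleton] at hw2
  refine assemble (lt (m := m)) SD ED hex SD_down 0 (cov hm) (rw_all hm) (Sum.inl aa) (Sum.inl ab)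
    (0, ob, (0, fun _ => false)) avoid ?_ hw1 hw2 _ (card_WD hm)
  rintro ⟨h, _⟩
  refine not_ab (SS_down _ _ ?_ h)
  rintro x (hx | hx)
  · rw [hx]; exact Or.inl rfl
  · rw [hx]; exact Or.inr rfl

end

end Pool.Agent.H73.EY
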